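import Mathlib

set_option autoImplicit false

open scoped unitInterval

namespace Pool.Agent.Work.MP_d1e9a6_pr_h45

variable {V : Type*} [Fintype V] [DecidableEq V]

/-- Geometric realisation of a family `K` of finite sets of vertices, in barycentric
coordinates. -/
def geo (K : Set (Finset V)) : Set (V → ℝ) :=
  {x | (∀ i, 0 ≤ x i) ∧ ∑ i, x i = 1 ∧ ∃ s ∈ K, ∀ i, x i ≠ 0 → i ∈ s}

/-- The minimum of the coordinates of `x` in `S`. -/
noncomputable def mn (S : Finset V) (hS : S.Nonempty) (x : V → ℝ) : ℝ := S.inf' hS x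

lemma continuous_mn (S : Finset V) (hS : S.Nonempty) : Continuous (mn S hS) := by
  unfold mn
  apply Continuous.finset_inf'_apply
  intro i _
  exact continuous_apply i

lemma mn_le {S : Finset V} (hS : S.Nonempty) (x : V → ℝ) {i : V} (hi : i ∈ S) :
    mn S hS x ≤ x i := Finset.inf'_le _ hi

lemma exists_mn_eq {S : Finset V} (hS : S.Nonempty) (x : V → ℝ) :
    ∃ i ∈ S, mn S hS x = x i := Finset.exists_mem_eq_inf' hS x

lemma mn_nonneg {S : Finset V} (hS : S.Nonempty) {x : V → ℝ} (hx : ∀ i, 0 ≤ x i) :
    0 ≤ mn S hS x := by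
  obtain ⟨i, _, hi⟩ := exists_mn_eq hS x
  rw [hi]; exact hx i

/-- The collapsing homotopy: take `s * m` from each vertex of `S` and give it to `v`. -/
noncomputable def push (S : Finset V) (hS : S.Nonempty) (v : V) (s : ℝ) (x : V → ℝ) : V → ℝ :=
  fun i => x i - (if i ∈ S then s * mn S hS x else 0) +
    (if i = v then s * (S.card * mn S hS x) else 0)

lemma continuous_push (S : Finset V) (hS : S.Nonempty) (v : V) :
    Continuous (fun p : ℝ × (V → ℝ) => push S hS v p.1 p.2) := by
  have hm : Continuous (fun p : ℝ × (V → ℝ) => mn S hS p.2) :=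
    (continuous_mn S hS).comp continuous_snd
  unfold push
  apply continuous_pi
  intro i
  refine Continuous.add (Continuous.sub (by fun_prop) ?_) ?_
  · split_ifs
    · exact continuous_fst.mul hm
    · exact continuous_const
  · split_ifs
    · exact continuous_fst.mul (continuous_const.mul hm)
    · exact continuous_const

lemma push_zero (S : Finset V) (hS : S.Nonempty) (v : V) (x : V → ℝ) :
    push S hS v 0 x = x := by
  funext i
  simp [push]

lemma push_of_mn_eq_zero {S : Finset V} (hS : S.Nonempty) (v : V) (s : ℝ) {x : V → ℝ}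
    (h : mn S hS x = 0) : push S hS v s x = x := by
  funext i
  simp [push, h]

lemma sum_push (S : Finset V) (hS : S.Nonempty) (v : V) (s : ℝ) (x : V → ℝ) :
    ∑ i, push S hS v s x i = ∑ i, x i := by
  unfold push
  rw [Finset.sum_add_distrib, Finset.sum_sub_distrib]
  simp only [Finset.sum_ite_mem, Finset.univ_inter, Finset.sum_const, nsmul_eq_mul,
    Finset.sum_ite_eq', Finset.mem_univ, if_true]
  ring

/-- If `S` is not contained in the support, nothing moves. -/
lemma mn_eq_zero {S : Finset V} (hS : S.Nonempty) {x : V → ℝ} (hx : ∀ i, 0 ≤ x i)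
    {t : Finset V} (ht : ∀ i, x i ≠ 0 → i ∈ t) (hSt : ¬ S ⊆ t) : mn S hS x = 0 := by
  rw [Finset.subset_iff] at hSt
  push Not at hSt
  obtain ⟨i, hi, hit⟩ := hSt
  have h0 : x i = 0 := by
    by_contra h
    exact hit (ht i h)
  apply le_antisymm
  · rw [← h0]; exact mn_le hS x hi
  · exact mn_nonneg hS hx

/-- Data of a (generalised) elementary collapse: `v ∉ S` and the link of `S` in `K` is a cone
with apex `v`. -/
structure IsCollapse (K : Set (Finset V)) (S : Finset V) (v : V) : Prop where
  down : ∀ s ∈ K, ∀ t ⊆ s, t ∈ K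
  nonempty : S.Nonempty
  not_mem : v ∉ S
  cone : ∀ t ∈ K, S ⊆ t → insert v t ∈ K

/-- What is left after the collapse. -/
def rest (K : Set (Finset V)) (S : Finset V) : Set (Finset V) := {t ∈ K | ¬ S ⊆ t}

lemma push_mem {K : Set (Finset V)} {S : Finset V} {v : V} (h : IsCollapse K S v)
    {s : ℝ} (hs : 0 ≤ s) (hs1 : s ≤ 1) {x : V → ℝ} (hx : x ∈ geo K) :
    push S h.nonempty v s x ∈ geo K := by
  obtain ⟨hx0, hx1, t, ht, hxt⟩ := hx
  by_cases hSt : S ⊆ t
  · refine ⟨fun i => ?_, by rw [sum_push]; exact hx1, insert v t, h.cone t ht hSt, fun i hi => ?_⟩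
    · have hm := mn_nonneg h.nonempty hx0
      have h1 : 0 ≤ s * (S.card * mn S h.nonempty x) := by positivity
      have h2 : 0 ≤ x i - (if i ∈ S then s * mn S h.nonempty x else 0) := by
        split_ifs with hi
        · have := mn_le h.nonempty x hi
          nlinarith
        · simpa using hx0 i
      unfold push
      split_ifs at h2 ⊢ <;> linarith
    · rw [Finset.mem_insert]
      by_contra hcon
      push Not at hcon
      apply hi
      have hxi : x i = 0 := by
        by_contra hne
        exact hcon.2 (hxt i hne)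
      have hiS : i ∉ S := fun hh => hcon.2 (hSt hh)
      simp [push, hxi, hiS, hcon.1]
  · rw [push_of_mn_eq_zero h.nonempty v s (mn_eq_zero h.nonempty hx0 hxt hSt)]
    exact ⟨hx0, hx1, t, ht, hxt⟩

lemma push_one_mem {K : Set (Finset V)} {S : Finset V} {v : V} (h : IsCollapse K S v)
    {x : V → ℝ} (hx : x ∈ geo K) : push S h.nonempty v 1 x ∈ geo (rest K S) := by
  obtain ⟨hy0, hy1, t, ht, hyt⟩ := push_mem h zero_le_one le_rfl hx
  obtain ⟨i, hi, him⟩ := exists_mn_eq h.nonempty x
  have hiv : i ≠ v := fun hh => h.not_mem (hh ▸ hi)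
  have hyi : push S h.nonempty v 1 x i = 0 := by
    simp [push, hi, hiv, him]
  refine ⟨hy0, hy1, t.erase i, ⟨h.down t ht _ (Finset.erase_subset _ _), ?_⟩, fun j hj => ?_⟩
  · intro hsub
    exact Finset.notMem_erase i t (hsub hi)
  · rw [Finset.mem_erase]
    refine ⟨?_, hyt j hj⟩
    rintro rfl
    exact hj hyi

lemma rest_subset_geo {K : Set (Finset V)} {S : Finset V} : geo (rest K S) ⊆ geo K := by
  rintro x ⟨h0, h1, t, ht, hxt⟩
  exact ⟨h0, h1, t, ht.1, hxt⟩

lemma push_of_mem_rest {K : Set (Finset V)} {S : Finset V} {v : V} (h : IsCollapse K S v)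
    {s : ℝ} {x : V → ℝ} (hx : x ∈ geo (rest K S)) : push S h.nonempty v s x = x := by
  obtain ⟨h0, h1, t, ht, hxt⟩ := hx
  exact push_of_mn_eq_zero h.nonempty v s (mn_eq_zero h.nonempty h0 hxt ht.2)

/-- An elementary collapse is a homotopy equivalence. -/
noncomputable def collapseEquiv {K : Set (Finset V)} {S : Finset V} {v : V}
    (h : IsCollapse K S v) : ContinuousMap.HomotopyEquiv (geo K) (geo (rest K S)) where
  toFun := ⟨fun x => ⟨push S h.nonempty v 1 x.1, push_one_mem h x.2⟩, by
    apply Continuous.subtype_mk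
    exact (continuous_push S h.nonempty v).comp (continuous_const.prodMk continuous_subtype_val)⟩
  invFun := ⟨fun x => ⟨x.1, rest_subset_geo x.2⟩, by fun_prop⟩
  left_inv := by
    refine ⟨ContinuousMap.Homotopy.symm ⟨⟨fun p => ⟨push S h.nonempty v (p.1 : ℝ) p.2.1,
      push_mem h p.1.2.1 p.1.2.2 p.2.2⟩, ?_⟩, ?_, ?_⟩⟩
    · apply Continuous.subtype_mk
      exact (continuous_push S h.nonempty v).comp
        ((continuous_subtype_val.comp continuous_fst).prodMk
          (continuous_subtype_val.comp continuous_snd))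
    · intro x
      apply Subtype.ext
      simp [push_zero]
    · intro x
      apply Subtype.ext
      simp
  right_inv := by
    have : ((⟨fun x => ⟨push S h.nonempty v 1 x.1, push_one_mem h x.2⟩, by
      apply Continuous.subtype_mk
      exact (continuous_push S h.nonempty v).comp
        (continuous_const.prodMk continuous_subtype_val)⟩ : C(geo K, geo (rest K S))).comp
        (⟨fun x => ⟨x.1, rest_subset_geo x.2⟩, by fun_prop⟩ : C(geo (rest K S), geo K))) =
        ContinuousMap.id _ := by
      ext1 x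
      apply Subtype.ext
      exact push_of_mem_rest h x.2
    rw [this]

end Pool.Agent.Work.MP_d1e9a6_pr_h45
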