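import Mathlib
import Pool.Agent.Work.MP_d1e9a6_pr.Statements
import Pool.Agent.Work.MP_d1e9a6_pr_h45.Collapse

/-!
P3 in the form of `Statements.lean`: `Stmt_StepTop` and `Stmt_StepAcyc`.
-/

set_option autoImplicit false

namespace Pool.Agent.Work.MP_d1e9a6_pr

open Pool.Agent.Work.MP_d1e9a6_pr_h45 (geo)

lemma Geo_eq_geo {V : Type} [Fintype V] {K : Set (Finset V)} (hK : IsLowerSet K) :
    Geo K = geo K := by
  ext x
  constructor
  · rintro ⟨h0, h1, h2⟩
    exact ⟨h0, h1, supp x, h2, fun i hi => (mem_supp x i).mpr hi⟩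
  · rintro ⟨h0, h1, s, hs, hxs⟩
    exact ⟨h0, h1, hK (fun i hi => hxs i ((mem_supp x i).mp hi)) hs⟩

lemma isLowerSet_delStar {V : Type} {K : Set (Finset V)} (hK : IsLowerSet K) (ρ : Finset V) :
    IsLowerSet (delStar K ρ) :=
  fun _ _ hts hs => ⟨hK hts hs.1, fun h => hs.2 (h.trans hts)⟩

theorem stepTop : Stmt_StepTop := by
  intro V _ _ K hK ρ v hρ hv hcone
  have h : Pool.Agent.Work.MP_d1e9a6_pr_h45.IsCollapse K ρ v :=
    ⟨fun s hs t ht => hK ht hs, hρ, hv, hcone⟩
  have e := Pool.Agent.Work.MP_d1e9a6_pr_h45.collapseEquiv h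
  have hrest : Pool.Agent.Work.MP_d1e9a6_pr_h45.rest K ρ = delStar K ρ := rfl
  rw [hrest, ← Geo_eq_geo hK, ← Geo_eq_geo (isLowerSet_delStar hK ρ)] at e
  exact ⟨e⟩

open Classical in
/-- replace the lists containing `ρ` by cones over their boundaries -/
noncomputable def repl {V : Type} (ρ : Finset V) (v : V) : Ch V →ₗ[ℤ] Ch V :=
  Finsupp.linearCombination ℤ (fun l : List V =>
    if ∀ a ∈ ρ, a ∈ l then cone v (bd l) else Finsupp.single l 1)

lemma D_repl {V : Type} (ρ : Finset V) (v : V) (y : Ch V) : D (repl ρ v y) = D y := by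
  classical
  induction y using Finsupp.induction_linear with
  | zero => simp
  | add f g hf hg => rw [map_add, map_add, map_add, hf, hg]
  | single l c =>
    rw [repl, Finsupp.linearCombination_single, map_smul, D_single]
    congr 1
    split_ifs
    · rw [D_cone, D_bd, map_zero, sub_zero]
    · rw [D_single_one]

theorem stepAcyc : Stmt_StepAcyc := by
  classical
  intro V _ _ K hK k ρ v hρ hv hcone hA m hm z hz
  obtain ⟨hz1, hz2⟩ := hz
  have hz3 : z ∈ Zc (FK K) m := ⟨CF_mono (fun l hl => hl.1) hz1, hz2⟩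
  obtain ⟨y, hy, hyz⟩ := hA m hm hz3
  refine ⟨repl ρ v y, ?_, by rw [D_repl, hyz]⟩
  refine map_CF_le (N := CF (FK (delStar K ρ)) (m + 1)) (repl ρ v) ?_ hy
  intro l hl hlm
  rw [repl, Finsupp.linearCombination_single, one_smul]
  split_ifs with hsub
  · -- `l` spans exactly `ρ`
    have hsub' : ρ ⊆ l.toFinset := fun a ha => List.mem_toFinset.mpr (hsub a ha)
    have hcardl : l.toFinset.card ≤ m + 1 := by
      rw [← hlm]; exact List.toFinset_card_le l
    have heq : ρ = l.toFinset := by
      apply Finset.eq_of_subset_of_card_le hsub'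
      omega
    have hKv : insert v l.toFinset ∈ K := hcone _ hl hsub'
    have hbd : bd l ∈ CF (fun l' : List V => l'.Sublist l) m := by
      rw [mem_CF]
      intro l' hl'
      obtain ⟨h1, h2⟩ := bd_support l l' hl'
      exact ⟨h1, by omega⟩
    refine cone_mem_CF hbd ?_
    intro l' hl' hl'm
    have hsub2 : l'.toFinset ⊆ l.toFinset := fun a ha =>
      List.mem_toFinset.mpr (hl'.subset (List.mem_toFinset.mp ha))
    have hcard2 : l'.toFinset.card ≤ m := by
      rw [← hl'm]; exact List.toFinset_card_le l'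
    refine ⟨?_, ?_⟩
    · rw [List.toFinset_cons]
      exact hK (Finset.insert_subset_insert v hsub2) hKv
    · intro hcon
      have h3 : ρ ⊆ l'.toFinset := by
        intro a ha
        have := hcon ha
        rw [List.toFinset_cons, Finset.mem_insert] at this
        rcases this with h | h
        · exact absurd (h ▸ ha) hv
        · exact h
      have := Finset.card_le_card h3
      omega
  · refine single_mem_CF 1 ⟨hl, fun hcon => hsub ?_⟩ hlm
    intro a ha
    exact List.mem_toFinset.mp (hcon ha)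

/-- Everything preserved by a sequence of reductions. -/
theorem red_all {V : Type} [Fintype V] [DecidableEq V] {k : ℕ} {K K' : Set (Finset V)}
    (hK : IsLowerSet K) (h : Red k K K') :
    IsLowerSet K' ∧ K' ⊆ K ∧ (∀ s : Finset V, s.card ≤ k → (s ∈ K' ↔ s ∈ K)) ∧
      Nonempty (ContinuousMap.HomotopyEquiv (Geo K) (Geo K')) ∧
      (Acyc (FK K) k → Acyc (FK K') k) := by
  induction h with
  | refl => exact ⟨hK, subset_rfl, fun _ _ => Iff.rfl, ⟨ContinuousMap.HomotopyEquiv.refl _⟩, id⟩
  | tail _ hstep ih =>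
    obtain ⟨hL, hsub, hiff, ⟨e⟩, hA⟩ := ih
    obtain ⟨ρ, v, hv, hρ, hcone, rfl⟩ := hstep
    refine ⟨isLowerSet_delStar hL ρ, fun s hs => hsub hs.1, ?_, ?_, ?_⟩
    · intro s hs
      rw [← hiff s hs]
      constructor
      · exact fun h => h.1
      · intro h
        refine ⟨h, fun hcon => ?_⟩
        have := Finset.card_le_card hcon
        omega
    · obtain ⟨e'⟩ := stepTop V _ hL ρ v (Finset.card_pos.mp (by omega)) hv hcone
      exact ⟨e.trans e'⟩
    · intro h
      exact stepAcyc V _ hL k ρ v hρ hv hcone (hA h)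

end Pool.Agent.Work.MP_d1e9a6_pr
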