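import Mathlib
import Pool.Agent.Work.MP_d1e9a6_pr_h36.Defs
import Pool.Agent.Work.MP_d1e9a6_pr_helper73.HV

/-!
P3, homology half: removing the star of `S`, whose link is a cone with apex `v`, keeps the
vanishing of homology.
-/

set_option autoImplicit false

namespace Pool.Agent.Work.MP_d1e9a6_pr.Top

variable {n : ℕ}

/-- What is left of `K` after removing the open star of `S`. -/
def rest (K : Set (Finset (Fin n))) (S : Finset (Fin n)) : Set (Finset (Fin n)) :=
  {t | t ∈ K ∧ ¬ S ⊆ t}

/-- A (generalised) elementary collapse: `S` is nonempty, `v ∉ S` and the link of `S` in `K` is a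
cone with apex `v`. A free face `S` of `insert v S` is the special case. -/
structure IsCollapse (K : Set (Finset (Fin n))) (S : Finset (Fin n)) (v : Fin n) : Prop where
  cpx : IsCpx K
  nonempty : S.Nonempty
  not_mem : v ∉ S
  cone : ∀ t ∈ K, S ⊆ t → insert v t ∈ K

lemma isCpx_rest {K : Set (Finset (Fin n))} (hK : IsCpx K) (S : Finset (Fin n)) :
    IsCpx (rest K S) where
  ne s hs := hK.ne s hs.1
  down s hs t ht htn := ⟨hK.down s hs.1 t ht htn, fun h => hs.2 (h.trans ht)⟩

lemma rk_insert_self (v : Fin n) (t : Finset (Fin n)) : rk v (insert v t) = rk v t := by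
  unfold rk
  rw [Finset.filter_insert, if_neg (lt_irrefl v)]

lemma rk_insert_ne {v w : Fin n} {t : Finset (Fin n)} (hw : w ∉ t) :
    rk v (insert w t) = rk v t + (if w < v then 1 else 0) := by
  unfold rk
  rw [Finset.filter_insert]
  split_ifs with h
  · rw [Finset.card_insert_of_notMem (by simp [hw])]
  · rfl

lemma bd_eq (c : Finset (Fin n) → ℤ) (t : Finset (Fin n)) :
    bd c t = ∑ v, if v ∉ t then (-1) ^ rk v t * c (insert v t) else 0 := by
  unfold bd
  rw [Finset.sum_filter]

lemma bd_bd (c : Finset (Fin n) → ℤ) (t : Finset (Fin n)) : bd (bd c) t = 0 := by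
  have h1 : bd (bd c) t = ∑ v, ∑ w, (if v ∉ t ∧ w ∉ t ∧ v ≠ w then
      (-1) ^ (rk v t + rk w (insert v t)) * c (insert w (insert v t)) else 0) := by
    rw [bd_eq]
    apply Finset.sum_congr rfl
    intro v _
    by_cases hv : v ∉ t
    · rw [if_pos hv, bd_eq, Finset.mul_sum]
      apply Finset.sum_congr rfl
      intro w _
      by_cases hw : w ∉ insert v t
      · have hw' : w ∉ t ∧ v ≠ w := by
          rw [Finset.mem_insert] at hw
          push Not at hw
          exact ⟨hw.2, fun h => hw.1 h.symm⟩
        rw [if_pos hw, if_pos ⟨hv, hw'⟩, pow_add]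
        ring
      · have hw' : ¬ (v ∉ t ∧ w ∉ t ∧ v ≠ w) := by
          rw [Finset.mem_insert] at hw
          push Not at hw
          rintro ⟨_, h2, h3⟩
          rcases hw with h | h
          · exact h3 h.symm
          · exact h2 h
        rw [if_neg hw, if_neg hw', mul_zero]
    · rw [if_neg hv]
      symm
      apply Finset.sum_eq_zero
      intro w _
      rw [if_neg]
      rintro ⟨h, _⟩
      exact hv h
  have h2 : bd (bd c) t = - bd (bd c) t := by
    conv_lhs => rw [h1, Finset.sum_comm]
    rw [h1, ← Finset.sum_neg_distrib]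
    apply Finset.sum_congr rfl
    intro w _
    rw [← Finset.sum_neg_distrib]
    apply Finset.sum_congr rfl
    intro v _
    by_cases h : v ∉ t ∧ w ∉ t ∧ v ≠ w
    · rw [if_pos h, if_pos ⟨h.2.1, h.1, h.2.2.symm⟩, Finset.insert_comm w v,
        rk_insert_ne h.1, rk_insert_ne h.2.1]
      rcases lt_or_gt_of_ne h.2.2 with hlt | hlt
      · rw [if_pos hlt, if_neg (not_lt.mpr hlt.le)]
        ring
      · rw [if_neg (not_lt.mpr hlt.le), if_pos hlt]
        ring
    · rw [if_neg h, if_neg]
      · simp
      · rintro ⟨h1, h2, h3⟩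
        exact h ⟨h2, h1, h3.symm⟩
  omega

/-- The cone operator on the simplices containing `S`. -/
def coneOp (S : Finset (Fin n)) (v : Fin n) (b : Finset (Fin n) → ℤ) (u : Finset (Fin n)) : ℤ :=
  if v ∈ u ∧ S ⊆ u then (-1) ^ rk v u * b (u.erase v) else 0

lemma bd_coneOp {S : Finset (Fin n)} {v : Fin n} (hv : v ∉ S) (b : Finset (Fin n) → ℤ)
    (hb : ∀ t, S ⊆ t → bd b t = 0) (u : Finset (Fin n)) (hu : S ⊆ u) :
    bd (coneOp S v b) u = b u := by
  by_cases hvu : v ∈ u
  · -- `u = insert v u0`
    obtain ⟨u0, hu0, rfl⟩ : ∃ u0, v ∉ u0 ∧ u = insert v u0 :=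
      ⟨u.erase v, Finset.notMem_erase v u, (Finset.insert_erase hvu).symm⟩
    have hSu0 : S ⊆ u0 := fun x hx => by
      have := hu hx
      rw [Finset.mem_insert] at this
      rcases this with h | h
      · exact absurd (h ▸ hx) hv
      · exact h
    have h0 := hb u0 hSu0
    rw [bd_eq, ← Finset.add_sum_erase _ _ (Finset.mem_univ v), if_pos hu0] at h0
    have h1 : bd (coneOp S v b) (insert v u0) = - ((-1) ^ rk v u0 *
        ∑ w ∈ Finset.univ.erase v, if w ∉ u0 then (-1) ^ rk w u0 * b (insert w u0) else 0) := by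
      rw [bd_eq, ← Finset.add_sum_erase _ _ (Finset.mem_univ v), if_neg (by simp), zero_add,
        Finset.mul_sum, ← Finset.sum_neg_distrib]
      apply Finset.sum_congr rfl
      intro w hw
      have hwv : w ≠ v := (Finset.mem_erase.mp hw).1
      by_cases hwu : w ∉ u0
      · rw [if_pos (by simp [hwv, hwu]), if_pos hwu]
        unfold coneOp
        rw [if_pos ⟨by simp, hu.trans (Finset.subset_insert _ _)⟩, Finset.insert_comm w v,
          Finset.erase_insert (by simp [hwv.symm, hu0]), rk_insert_self, rk_insert_ne hwu,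
          rk_insert_ne hu0]
        rcases lt_or_gt_of_ne hwv with hlt | hlt
        · rw [if_pos hlt, if_neg (not_lt.mpr hlt.le)]
          ring
        · rw [if_neg (not_lt.mpr hlt.le), if_pos hlt]
          ring
      · rw [if_neg hwu, if_neg (by
          intro h
          apply h
          rw [Finset.mem_insert]
          right
          exact not_not.mp hwu)]
        simp
    rw [h1]
    have h2 : (∑ w ∈ Finset.univ.erase v, if w ∉ u0 then (-1) ^ rk w u0 * b (insert w u0) else 0)
        = - ((-1) ^ rk v u0 * b (insert v u0)) := by linarith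
    rw [h2]
    have h3 : ((-1 : ℤ) ^ rk v u0) * (-1) ^ rk v u0 = 1 := by
      rw [← mul_pow]; simp
    calc - ((-1) ^ rk v u0 * - ((-1) ^ rk v u0 * b (insert v u0)))
        = (((-1 : ℤ) ^ rk v u0) * (-1) ^ rk v u0) * b (insert v u0) := by ring
      _ = b (insert v u0) := by rw [h3, one_mul]
  · rw [bd_eq, Finset.sum_eq_single v]
    · rw [if_pos hvu]
      unfold coneOp
      rw [if_pos ⟨by simp, hu.trans (Finset.subset_insert _ _)⟩, rk_insert_self,
        Finset.erase_insert hvu, ← mul_assoc, ← mul_pow]
      simp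
    · intro w _ hwv
      by_cases hw : w ∉ u
      · rw [if_pos hw]
        unfold coneOp
        rw [if_neg, mul_zero]
        rintro ⟨h, _⟩
        rw [Finset.mem_insert] at h
        rcases h with h | h
        · exact hwv h.symm
        · exact hvu h
      · rw [if_neg hw]
    · intro h
      exact absurd (Finset.mem_univ v) h

lemma bd_sub (b c : Finset (Fin n) → ℤ) (t : Finset (Fin n)) :
    bd (fun s => b s - c s) t = bd b t - bd c t := by
  unfold bd
  rw [← Finset.sum_sub_distrib]
  apply Finset.sum_congr rfl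
  intro v _
  ring

/-- Homology vanishing is inherited by the result of a collapse, in every dimension. -/
theorem hv_rest {K : Set (Finset (Fin n))} {S : Finset (Fin n)} {v : Fin n}
    (h : IsCollapse K S v) {j : ℕ} (hj : HV K j) : HV (rest K S) j := by
  intro c hc hcyc
  obtain ⟨b, hb, hbc⟩ := hj c (fun s hs => ⟨(hc s hs).1.1, (hc s hs).2⟩) hcyc
  have hb0 : ∀ t, S ⊆ t → bd b t = 0 := by
    intro t ht
    rw [hbc]
    by_contra hne
    exact (hc t hne).1.2 ht
  refine ⟨fun s => b s - bd (coneOp S v b) s, ?_, ?_⟩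
  · intro s hs
    have hs' : b s - bd (coneOp S v b) s ≠ 0 := hs
    have hSs : ¬ S ⊆ s := by
      intro hSs
      apply hs'
      rw [bd_coneOp h.not_mem b hb0 s hSs, sub_self]
    by_cases hbs : b s = 0
    · have h1 : bd (coneOp S v b) s ≠ 0 := by
        intro h0
        apply hs'
        rw [hbs, h0, sub_self]
      unfold bd at h1
      obtain ⟨w, hw, hw1⟩ := Finset.exists_ne_zero_of_sum_ne_zero h1
      have hw2 : coneOp S v b (insert w s) ≠ 0 := fun h0 => hw1 (by rw [h0, mul_zero])
      have hws : w ∉ s := by simpa using hw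
      unfold coneOp at hw2
      split_ifs at hw2 with hcond
      · have hb2 : b ((insert w s).erase v) ≠ 0 := fun h0 => hw2 (by rw [h0, mul_zero])
        obtain ⟨hK2, hcard2⟩ := hb _ hb2
        have hS2 : S ⊆ (insert w s).erase v := by
          intro x hx
          rw [Finset.mem_erase]
          exact ⟨fun hxv => h.not_mem (hxv ▸ hx), hcond.2 hx⟩
        have hK3 := h.cone _ hK2 hS2
        rw [Finset.insert_erase hcond.1] at hK3
        have hcard3 : (insert w s).card = j + 3 := by
          rw [← Finset.insert_erase hcond.1, Finset.card_insert_of_notMem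
            (Finset.notMem_erase _ _), hcard2]
        rw [Finset.card_insert_of_notMem hws] at hcard3
        have hcard : s.card = j + 1 + 1 := by omega
        refine ⟨⟨h.cpx.down _ hK3 s (Finset.subset_insert _ _) ?_, hSs⟩, hcard⟩
        rw [← Finset.card_pos]; omega
      · exact absurd rfl hw2
    · exact ⟨⟨(hb s hbs).1, hSs⟩, (hb s hbs).2⟩
  · intro t
    rw [bd_sub, bd_bd, sub_zero, hbc]

/-- Combinatorial simple connectivity only sees faces with at most three vertices. -/
theorem sc_rest {K : Set (Finset (Fin n))} {S : Finset (Fin n)} (hS : 4 ≤ S.card)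
    (h : SC K) : SC (rest K S) := by
  have key : ∀ t : Finset (Fin n), t.card ≤ 3 → (t ∈ rest K S ↔ t ∈ K) := by
    intro t ht
    constructor
    · exact fun h => h.1
    · intro h
      refine ⟨h, fun hSt => ?_⟩
      have := Finset.card_le_card hSt
      omega
  obtain ⟨h1, h2⟩ := h
  refine ⟨?_, ?_⟩
  · intro a b ha hb
    have := h1 a b ha.1 hb.1
    exact this.lift id (fun x y hxy =>
      (key _ (Finset.card_le_two.trans (by norm_num))).mpr hxy)
  · intro G _ e he
    obtain ⟨s, hs⟩ := h2 G e (fun a b c habc => he a b c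
      ((key _ Finset.card_le_three).mpr habc))
    exact ⟨s, fun a b hab => hs a b hab.1⟩

end Pool.Agent.Work.MP_d1e9a6_pr.Top
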