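import Mathlib
import Pool.Agent.Work.MP_d1e9a6_pr_h45.Collapse
import Pool.Agent.Work.MP_d1e9a6_pr_h45.HVCollapse

/-!
P3, topological half in the interface form: removing the star of `S`, whose link is a cone with
apex `v`, is a homotopy equivalence of realizations.
-/

set_option autoImplicit false

namespace Pool.Agent.Work.MP_d1e9a6_pr.Top

open Pool.Agent.Work.MP_d1e9a6_pr_h45 (geo)

variable {n : ℕ}

lemma mem_supp (x : Fin n → ℝ) (i : Fin n) : i ∈ supp x ↔ x i ≠ 0 := by
  classical
  unfold supp
  simp

lemma real_eq_geo {K : Set (Finset (Fin n))} (hK : IsCpx K) : real K = geo K := by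
  ext x
  constructor
  · rintro ⟨h0, h1, h2⟩
    exact ⟨h0, h1, supp x, h2, fun i hi => (mem_supp x i).mpr hi⟩
  · rintro ⟨h0, h1, s, hs, hxs⟩
    refine ⟨h0, h1, hK.down s hs _ (fun i hi => hxs i ((mem_supp x i).mp hi)) ?_⟩
    by_contra hne
    rw [Finset.not_nonempty_iff_eq_empty] at hne
    have : ∑ i, x i = 0 := by
      apply Finset.sum_eq_zero
      intro i _
      by_contra hi
      have : i ∈ supp x := (mem_supp x i).mpr hi
      rw [hne] at this
      exact absurd this (Finset.notMem_empty i)
    rw [this] at h1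
    exact zero_ne_one h1

/-- An elementary collapse is a homotopy equivalence. -/
theorem collapse_homotopyEquiv {K : Set (Finset (Fin n))} {S : Finset (Fin n)} {v : Fin n}
    (h : IsCollapse K S v) :
    Nonempty (ContinuousMap.HomotopyEquiv (real K) (real (rest K S))) := by
  -- add the empty face to `K`
  have hK' : Pool.Agent.Work.MP_d1e9a6_pr_h45.IsCollapse (insert ∅ K) S v := by
    refine ⟨?_, h.nonempty, h.not_mem, ?_⟩
    · intro s hs t ht
      rcases Finset.eq_empty_or_nonempty t with rfl | htn
      · exact Set.mem_insert _ _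
      · rcases hs with rfl | hs
        · rw [Finset.subset_empty] at ht
          exact Or.inl ht
        · exact Or.inr (h.cpx.down s hs t ht htn)
    · rintro t ht hSt
      rcases ht with rfl | ht
      · exact absurd (Finset.subset_empty.mp hSt) h.nonempty.ne_empty
      · exact Or.inr (h.cone t ht hSt)
  have hgeo : ∀ L : Set (Finset (Fin n)), geo (insert ∅ L) = geo L := by
    intro L
    ext x
    constructor
    · rintro ⟨h0, h1, s, hs, hxs⟩
      rcases hs with rfl | hs
      · exfalso
        have : ∑ i, x i = 0 := by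
          apply Finset.sum_eq_zero
          intro i _
          by_contra hi
          exact absurd (hxs i hi) (Finset.notMem_empty i)
        rw [this] at h1
        exact zero_ne_one h1
      · exact ⟨h0, h1, s, hs, hxs⟩
    · rintro ⟨h0, h1, s, hs, hxs⟩
      exact ⟨h0, h1, s, Or.inr hs, hxs⟩
  have hrest : Pool.Agent.Work.MP_d1e9a6_pr_h45.rest (insert ∅ K) S =
      insert ∅ (rest K S) := by
    ext t
    constructor
    · rintro ⟨h1, h2⟩
      rcases h1 with rfl | h1
      · exact Or.inl rfl
      · exact Or.inr ⟨h1, h2⟩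
    · rintro (rfl | h1)
      · exact ⟨Or.inl rfl, fun hS => h.nonempty.ne_empty (Finset.subset_empty.mp hS)⟩
      · exact ⟨Or.inr h1.1, h1.2⟩
  have e := Pool.Agent.Work.MP_d1e9a6_pr_h45.collapseEquiv hK'
  rw [hrest, hgeo, hgeo, ← real_eq_geo h.cpx, ← real_eq_geo (isCpx_rest h.cpx S)] at e
  exact ⟨e⟩

end Pool.Agent.Work.MP_d1e9a6_pr.Top
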